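import Mathlib
import Pool.Agent.Lib.helper10.Amp2

/-!
A zero of the amplitude of the theta graph with paths of lengths 1, 4 and 5 (nine vertices, ten
edges) at a planar configuration with coordinates in a real quadratic field.
-/

namespace Pool.Agent.Results.MP_b525e0_co.ThetaZero

open Pool.Agent.H10Amp

abbrev R : Type := ℤ√21711576529

def idx (i j : Fin 9) : ℕ :=
  (([[10, 0, 1, 10, 10, 5, 10, 10, 10], [0, 10, 10, 10, 4, 10, 10, 10, 9], [1, 10, 10, 2, 10,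
   10, 10, 10, 10], [10, 10, 2, 10, 3, 10, 10, 10, 10], [10, 4, 10, 3, 10, 10, 10, 10, 10], [5,
   10, 10, 10, 10, 10, 6, 10, 10], [10, 10, 10, 10, 10, 6, 10, 7, 10], [10, 10, 10, 10, 10, 10,
   7, 10, 8], [10, 9, 10, 10, 10, 10, 10, 8, 10]] : List (List ℕ)).getD i.val []).getD j.val 10

def G : SimpleGraph (Fin 9) where
  Adj i j := idx i j ≠ 10
  symm := ⟨by decide +kernel⟩
  loopless := ⟨by decide +kernel⟩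

instance : DecidableRel G.Adj := fun i j => inferInstanceAs (Decidable (idx i j ≠ 10))

def fwd (i j : Fin 9) : Bool :=
  ([(0, 1), (0, 2), (2, 3), (3, 4), (4, 1), (0, 5), (5, 6), (6, 7), (7, 8), (8, 1)] : List (Fin
   9 × Fin 9)).contains (i, j)

def aL (k : ℕ) : R × R :=
  ([(⟨-1, 0⟩, ⟨3, 0⟩), (⟨1, 0⟩, ⟨2, 0⟩), (⟨3, 0⟩, ⟨1, 0⟩), (⟨3, 0⟩, ⟨1, 0⟩), (⟨-3, 0⟩, ⟨2, 0⟩),
   (⟨1, 0⟩, ⟨0, 0⟩), (⟨953272, 0⟩, ⟨-624033, -1⟩), (⟨1, 0⟩, ⟨0, 0⟩), (⟨1, 0⟩, ⟨2, 0⟩), (⟨2, 0⟩,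
   ⟨1, 0⟩)] : List (R × R)).getD k (0, 0)

def lamL (k : ℕ) : R :=
  ([⟨2, 0⟩, ⟨63, 0⟩, ⟨3, 0⟩, ⟨3, 0⟩, ⟨25, 0⟩, ⟨394711034566, 2677974⟩, ⟨1, 0⟩, ⟨1, 0⟩,
   ⟨297436592984, 476636⟩, ⟨1, 0⟩] : List R).getD k 0

def xL (i : Fin 9) : R × R :=
  ([(⟨0, 0⟩, ⟨0, 0⟩), (⟨-12, 0⟩, ⟨-16, 0⟩), (⟨252, 0⟩, ⟨-189, 0⟩), (⟨270, 0⟩, ⟨-165, 0⟩), (⟨288,
   0⟩, ⟨-141, 0⟩), (⟨0, 0⟩, ⟨394711034566, 2677974⟩), (⟨-1189746371952, -1906544⟩,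
   ⟨892309778932, 1429908⟩), (⟨-1189746371952, -1906544⟩, ⟨892309778933, 1429908⟩), (⟨-16, 0⟩,
   ⟨-19, 0⟩)] : List (R × R)).getD i.val (0, 0)

def g (i j : Fin 9) : R × R :=
  if fwd i j = true then aL (idx i j) else (-(aL (idx i j)).2, (aL (idx i j)).1)

def nb (i : Fin 9) (c : Fin 6) (j : Fin 9) : Fin 9 :=
  ((([[[0, 1, 2, 3, 4, 5, 6, 7, 8], [0, 1, 5, 3, 4, 2, 6, 7, 8], [0, 2, 1, 3, 4, 5, 6, 7, 8],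
   [0, 2, 5, 3, 4, 1, 6, 7, 8], [0, 5, 1, 3, 4, 2, 6, 7, 8], [0, 5, 2, 3, 4, 1, 6, 7, 8]], [[0,
   1, 2, 3, 4, 5, 6, 7, 8], [0, 1, 2, 3, 8, 5, 6, 7, 4], [4, 1, 2, 3, 0, 5, 6, 7, 8], [4, 1, 2,
   3, 8, 5, 6, 7, 0], [8, 1, 2, 3, 0, 5, 6, 7, 4], [8, 1, 2, 3, 4, 5, 6, 7, 0]], [[0, 1, 2, 3,
   4, 5, 6, 7, 8], [3, 1, 2, 0, 4, 5, 6, 7, 8], [0, 1, 2, 3, 4, 5, 6, 7, 8], [0, 1, 2, 3, 4, 5,
   6, 7, 8], [0, 1, 2, 3, 4, 5, 6, 7, 8], [0, 1, 2, 3, 4, 5, 6, 7, 8]], [[0, 1, 2, 3, 4, 5, 6,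
   7, 8], [0, 1, 4, 3, 2, 5, 6, 7, 8], [0, 1, 2, 3, 4, 5, 6, 7, 8], [0, 1, 2, 3, 4, 5, 6, 7, 8],
   [0, 1, 2, 3, 4, 5, 6, 7, 8], [0, 1, 2, 3, 4, 5, 6, 7, 8]], [[0, 1, 2, 3, 4, 5, 6, 7, 8], [0,
   3, 2, 1, 4, 5, 6, 7, 8], [0, 1, 2, 3, 4, 5, 6, 7, 8], [0, 1, 2, 3, 4, 5, 6, 7, 8], [0, 1, 2,
   3, 4, 5, 6, 7, 8], [0, 1, 2, 3, 4, 5, 6, 7, 8]], [[0, 1, 2, 3, 4, 5, 6, 7, 8], [6, 1, 2, 3,
   4, 5, 0, 7, 8], [0, 1, 2, 3, 4, 5, 6, 7, 8], [0, 1, 2, 3, 4, 5, 6, 7, 8], [0, 1, 2, 3, 4, 5,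
   6, 7, 8], [0, 1, 2, 3, 4, 5, 6, 7, 8]], [[0, 1, 2, 3, 4, 5, 6, 7, 8], [0, 1, 2, 3, 4, 7, 6,
   5, 8], [0, 1, 2, 3, 4, 5, 6, 7, 8], [0, 1, 2, 3, 4, 5, 6, 7, 8], [0, 1, 2, 3, 4, 5, 6, 7, 8],
   [0, 1, 2, 3, 4, 5, 6, 7, 8]], [[0, 1, 2, 3, 4, 5, 6, 7, 8], [0, 1, 2, 3, 4, 5, 8, 7, 6], [0,
   1, 2, 3, 4, 5, 6, 7, 8], [0, 1, 2, 3, 4, 5, 6, 7, 8], [0, 1, 2, 3, 4, 5, 6, 7, 8], [0, 1, 2,
   3, 4, 5, 6, 7, 8]], [[0, 1, 2, 3, 4, 5, 6, 7, 8], [0, 7, 2, 3, 4, 5, 6, 1, 8], [0, 1, 2, 3,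
   4, 5, 6, 7, 8], [0, 1, 2, 3, 4, 5, 6, 7, 8], [0, 1, 2, 3, 4, 5, 6, 7, 8], [0, 1, 2, 3, 4, 5,
   6, 7, 8]]] : List (List (List (Fin 9)))).getD i.val []).getD c.val []).getD j.val 0

def ni (i : Fin 9) (c : Fin 6) (j : Fin 9) : Fin 9 :=
  ((([[[0, 1, 2, 3, 4, 5, 6, 7, 8], [0, 1, 5, 3, 4, 2, 6, 7, 8], [0, 2, 1, 3, 4, 5, 6, 7, 8],
   [0, 5, 1, 3, 4, 2, 6, 7, 8], [0, 2, 5, 3, 4, 1, 6, 7, 8], [0, 5, 2, 3, 4, 1, 6, 7, 8]], [[0,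
   1, 2, 3, 4, 5, 6, 7, 8], [0, 1, 2, 3, 8, 5, 6, 7, 4], [4, 1, 2, 3, 0, 5, 6, 7, 8], [8, 1, 2,
   3, 0, 5, 6, 7, 4], [4, 1, 2, 3, 8, 5, 6, 7, 0], [8, 1, 2, 3, 4, 5, 6, 7, 0]], [[0, 1, 2, 3,
   4, 5, 6, 7, 8], [3, 1, 2, 0, 4, 5, 6, 7, 8], [0, 1, 2, 3, 4, 5, 6, 7, 8], [0, 1, 2, 3, 4, 5,
   6, 7, 8], [0, 1, 2, 3, 4, 5, 6, 7, 8], [0, 1, 2, 3, 4, 5, 6, 7, 8]], [[0, 1, 2, 3, 4, 5, 6,
   7, 8], [0, 1, 4, 3, 2, 5, 6, 7, 8], [0, 1, 2, 3, 4, 5, 6, 7, 8], [0, 1, 2, 3, 4, 5, 6, 7, 8],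
   [0, 1, 2, 3, 4, 5, 6, 7, 8], [0, 1, 2, 3, 4, 5, 6, 7, 8]], [[0, 1, 2, 3, 4, 5, 6, 7, 8], [0,
   3, 2, 1, 4, 5, 6, 7, 8], [0, 1, 2, 3, 4, 5, 6, 7, 8], [0, 1, 2, 3, 4, 5, 6, 7, 8], [0, 1, 2,
   3, 4, 5, 6, 7, 8], [0, 1, 2, 3, 4, 5, 6, 7, 8]], [[0, 1, 2, 3, 4, 5, 6, 7, 8], [6, 1, 2, 3,
   4, 5, 0, 7, 8], [0, 1, 2, 3, 4, 5, 6, 7, 8], [0, 1, 2, 3, 4, 5, 6, 7, 8], [0, 1, 2, 3, 4, 5,
   6, 7, 8], [0, 1, 2, 3, 4, 5, 6, 7, 8]], [[0, 1, 2, 3, 4, 5, 6, 7, 8], [0, 1, 2, 3, 4, 7, 6,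
   5, 8], [0, 1, 2, 3, 4, 5, 6, 7, 8], [0, 1, 2, 3, 4, 5, 6, 7, 8], [0, 1, 2, 3, 4, 5, 6, 7, 8],
   [0, 1, 2, 3, 4, 5, 6, 7, 8]], [[0, 1, 2, 3, 4, 5, 6, 7, 8], [0, 1, 2, 3, 4, 5, 8, 7, 6], [0,
   1, 2, 3, 4, 5, 6, 7, 8], [0, 1, 2, 3, 4, 5, 6, 7, 8], [0, 1, 2, 3, 4, 5, 6, 7, 8], [0, 1, 2,
   3, 4, 5, 6, 7, 8]], [[0, 1, 2, 3, 4, 5, 6, 7, 8], [0, 7, 2, 3, 4, 5, 6, 1, 8], [0, 1, 2, 3,
   4, 5, 6, 7, 8], [0, 1, 2, 3, 4, 5, 6, 7, 8], [0, 1, 2, 3, 4, 5, 6, 7, 8], [0, 1, 2, 3, 4, 5,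
   6, 7, 8]]] : List (List (List (Fin 9)))).getD i.val []).getD c.val []).getD j.val 0

def D (i : Fin 9) : List (Fin 6) := if i.val < 2 then [0, 1, 2, 3, 4, 5] else [0, 1]

def nbr (i : Fin 9) : Fin 9 × Fin 9 × Fin 9 :=
  ([(1, 2, 5), (0, 4, 8), (0, 3, 3), (2, 4, 4), (3, 1, 1), (0, 6, 6), (5, 7, 7), (6, 8, 8), (7,
   1, 1)] : List (Fin 9 × Fin 9 × Fin 9)).getD i.val (0, 0, 0)

theorem good : ∀ i j, G.Adj i j → GoodQ (xL i) (xL j) (lamL (idx i j)) (g i j) := by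
  decide +kernel

theorem nbr_adj : ∀ i, G.Adj i (nbr i).1 ∧ G.Adj i (nbr i).2.1 ∧ G.Adj i (nbr i).2.2 ∧
    (nbr i).1 ≠ (nbr i).2.1 ∧ (nbr i).1 ≠ (nbr i).2.2 := by
  decide +kernel

theorem adj_nbr : ∀ i j, G.Adj i j → j = (nbr i).1 ∨ j = (nbr i).2.1 ∨ j = (nbr i).2.2 := by
  decide +kernel

theorem surj : ∀ i a, G.Adj i a → ∀ b, G.Adj i b → ∀ c, G.Adj i c → a ≠ b → a ≠ c →
    (b = c ↔ (nbr i).2.1 = (nbr i).2.2) →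
    ∃ e ∈ D i, nb i e (nbr i).1 = a ∧ nb i e (nbr i).2.1 = b ∧ nb i e (nbr i).2.2 = c := by
  decide +kernel

theorem loc : Loc G nb ni D := by
  refine ⟨by decide +kernel, by decide +kernel, by decide +kernel, by decide +kernel,
    by decide +kernel, ?_⟩
  intro i f hf hinj
  obtain ⟨h1, h2, h3, h4, h5⟩ := nbr_adj i
  obtain ⟨e, he, e1, e2, e3⟩ := surj i _ (hf _ h1) _ (hf _ h2) _ (hf _ h3)
    (fun h => h4 (hinj _ _ h1 h2 h)) (fun h => h5 (hinj _ _ h1 h3 h))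
    ⟨fun h => hinj _ _ h2 h3 h, fun h => by rw [h]⟩
  refine ⟨e, he, fun j hj => ?_⟩
  rcases adj_nbr i j hj with h | h | h
  · rw [h, e1]
  · rw [h, e2]
  · rw [h, e3]

def dl : List G.Dart :=
  [⟨(0, 1), by decide⟩, ⟨(0, 2), by decide⟩, ⟨(2, 3), by decide⟩, ⟨(3, 4), by decide⟩, ⟨(4, 1),
   by decide⟩, ⟨(0, 5), by decide⟩, ⟨(5, 6), by decide⟩, ⟨(6, 7), by decide⟩, ⟨(7, 8), by
   decide⟩, ⟨(8, 1), by decide⟩]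

def Δ : Finset G.Dart := dl.toFinset

theorem dl_nodup : dl.Nodup := by decide +kernel

theorem orient : IsOrientation G Δ := by
  unfold IsOrientation Δ
  simp only [List.mem_toFinset]
  decide +kernel

def F (t : List (Fin 6)) : R :=
  (dl.map fun e => termQ nb g e.fst e.snd (t.getD e.fst.val 0) (t.getD e.snd.val 0)).prod

def tm : Fin 9 → Fin 9 → Fin 6 → Fin 6 → R := termQ nb g

def FA (b c : Fin 6) (u : List (Fin 6)) : R :=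
  tm 0 1 b c * tm 0 2 b (u.getD 0 0) * tm 2 3 (u.getD 0 0) (u.getD 1 0) *
    tm 3 4 (u.getD 1 0) (u.getD 2 0) * tm 4 1 (u.getD 2 0) c

def FB (b c : Fin 6) (u : List (Fin 6)) : R :=
  tm 0 5 b (u.getD 0 0) * tm 5 6 (u.getD 0 0) (u.getD 1 0) * tm 6 7 (u.getD 1 0) (u.getD 2 0) *
    tm 7 8 (u.getD 2 0) (u.getD 3 0) * tm 8 1 (u.getD 3 0) c

theorem F_cons (b c : Fin 6) (t : List (Fin 6)) :
    F (b :: c :: t) = FA b c (t.take 3) * FB b c (t.drop 3) := by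
  have h : F (b :: c :: t) = tm 0 1 b c * (tm 0 2 b (t.getD 0 0) *
      (tm 2 3 (t.getD 0 0) (t.getD 1 0) * (tm 3 4 (t.getD 1 0) (t.getD 2 0) *
      (tm 4 1 (t.getD 2 0) c * (tm 0 5 b (t.getD 3 0) * (tm 5 6 (t.getD 3 0) (t.getD 4 0) *
      (tm 6 7 (t.getD 4 0) (t.getD 5 0) * (tm 7 8 (t.getD 5 0) (t.getD 6 0) *
      (tm 8 1 (t.getD 6 0) c * 1))))))))) := rfl
  rw [h]
  unfold FA FB
  simp only [List.getD_eq_getElem?_getD, List.getElem?_take, List.getElem?_drop, Nat.ofNat_pos,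
    if_true, Nat.one_lt_ofNat, Nat.lt_add_one, Nat.reduceAdd]
  ring

theorem nest_mul (l1 l2 : List (List (Fin 6))) (B : List (Fin 6) → R) :
    ∀ A : List (Fin 6) → R,
      nest (l1 ++ l2) (fun t => A (t.take l1.length) * B (t.drop l1.length)) =
        nest l1 A * nest l2 B := by
  induction l1 with
  | nil =>
    intro A
    simp only [List.nil_append, List.length_nil, List.take_zero, List.drop_zero, nest]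
    induction l2 generalizing B with
    | nil => rfl
    | cons l ls ih => simp only [nest, ih, List.sum_map_mul_left]
  | cons l ls ih =>
    intro A
    simp only [List.cons_append, List.length_cons, nest, List.take_succ_cons, List.drop_succ_cons]
    rw [← List.sum_map_mul_right]
    congr 1
    exact List.map_congr_left fun c _ => ih fun t => A (c :: t)

theorem nest_eq : nest (List.ofFn D) F = 0 := by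
  have h : List.ofFn D = [0, 1, 2, 3, 4, 5] :: [0, 1, 2, 3, 4, 5] ::
      ([[0, 1], [0, 1], [0, 1]] ++ [[0, 1], [0, 1], [0, 1], [0, 1]]) := by decide +kernel
  have h2 : ∀ b c : Fin 6, nest ([[0, 1], [0, 1], [0, 1]] ++ [[0, 1], [0, 1], [0, 1], [0, 1]])
      (fun t => F (b :: c :: t)) = nest [[0, 1], [0, 1], [0, 1]] (FA b c) *
        nest [[0, 1], [0, 1], [0, 1], [0, 1]] (FB b c) := by
    intro b c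
    rw [← nest_mul]
    simp only [F_cons]
    rfl
  rw [h, nest]
  simp only [nest.eq_2 _ _ (_ ++ _), h2]
  decide +kernel

theorem num_eq : ∑ s ∈ Fintype.piFinset (fun i => (D i).toFinset),
    ∏ e ∈ Δ, termQ nb g e.fst e.snd (s e.fst) (s e.snd) = 0 := by
  rw [← nest_eq, ← sum_pi_nest 9 D (by decide +kernel) F]
  refine Finset.sum_congr rfl fun s _ => ?_
  have h : ∀ i : Fin 9, (List.ofFn s).getD i.val 0 = s i := by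
    intro i
    rw [List.getD_eq_getElem _ _ (by rw [List.length_ofFn]; exact i.isLt), List.getElem_ofFn]
  unfold Δ F
  rw [List.prod_toFinset _ dl_nodup]
  simp only [h]

theorem result : ∃ (n : ℕ) (G : SimpleGraph (Fin n)) (x : Fin n → EuclideanSpace ℝ (Fin 3))
    (ψ : G.Dart → Fin 2 → ℂ) (Δ : Finset G.Dart),
    Admissible G x ∧ IsSpinorChoice G x ψ ∧ IsOrientation G Δ ∧
      ∏ d ∈ Δ, omega (ψ d) (ψ d.symm) ≠ 0 ∧ amplitude G ψ Δ = 0 := by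
  have hd : (0 : ℤ) ≤ 21711576529 := by norm_num
  refine ⟨9, G, fun i => toEQ hd (xL i),
    fun e => cfQ hd (g e.fst e.snd) • toCQ hd (g e.fst e.snd), Δ,
    fun i j h => (goodQ_spinor hd (good i j h)).1,
    fun e => (goodQ_spinor hd (good _ _ e.adj)).2, orient, ?_, ?_⟩
  · refine den_ne hd Δ g (fun i j h => (good i j h).2.1) ?_
    unfold Δ
    simp only [List.mem_toFinset]
    decide +kernel
  · exact amplitude_eq_zero hd loc orient g (fun i j h => (good i j h).2.1) _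
      (fun s => by simp only [Fintype.mem_piFinset, List.mem_toFinset]) num_eq

end Pool.Agent.Results.MP_b525e0_co.ThetaZero
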